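import Pool.Agent.H548.SC.Defs

/-!
SC-MAT of project SC (MP_c59e09_co): the matroid inequality from the abstract one.
-/

set_option autoImplicit false
open Classical Finset

namespace Pool.Agent.R928.SC

open Pool.Agent.H548.SC

variable {α : Type} {M : Matroid α}

theorem sub_E (hE : M.E = Set.univ) (X : Set α) : X ⊆ M.E := by
  rw [hE]; exact Set.subset_univ X

theorem nsp {X Y : Set α} (hX : X ⊆ M.closure Y) (hY : Y.encard < M.eRank) :
    ¬ M.Spanning X := by
  intro h
  have h1 := h.eRk_eq
  have h2 := M.eRk_mono hX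
  rw [M.eRk_closure_eq, h1] at h2
  exact absurd (h2.trans (M.eRk_le_encard Y)) (not_le.2 hY)

theorem span_of {I X : Set α} (hE : M.E = Set.univ) (hI : M.Indep I) (hfin : I.Finite)
    (h : M.eRank ≤ I.encard) (hIX : I ⊆ X) : M.Spanning X := by
  have h1 : M.IsBase I := hI.isBase_of_eRk_ge hfin (by rw [hI.eRk_eq_encard]; exact h)
  exact h1.spanning_of_superset hIX (sub_E hE X)

theorem ind_insert {I : Set α} {a : α} (hE : M.E = Set.univ) (hI : M.Indep I)
    (ha : a ∉ M.closure I) : M.Indep (insert a I) ∧ a ∉ I :=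
  (hI.notMem_closure_iff (sub_E hE Set.univ (Set.mem_univ a))).1 ha

theorem span2 {X : Set α} {a b : α} (hE : M.E = Set.univ) (hr : M.eRank = 2)
    (ha : M.Indep {a}) (hb : b ∉ M.closure {a}) (haX : a ∈ X) (hbX : b ∈ X) :
    M.Spanning X := by
  obtain ⟨h1, h2⟩ := ind_insert hE ha hb
  refine span_of hE h1 (Set.toFinite _) ?_ (by
    intro x hx
    rcases hx with rfl | rfl
    · exact hbX
    · exact haX)
  rw [hr, Set.encard_insert_of_notMem h2, Set.encard_singleton]
  norm_num

theorem span3 {X : Set α} {a b c : α} (hE : M.E = Set.univ) (hr : M.eRank = 3)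
    (ha : M.Indep {a}) (hb : b ∉ M.closure {a}) (hc : c ∉ M.closure {b, a})
    (haX : a ∈ X) (hbX : b ∈ X) (hcX : c ∈ X) : M.Spanning X := by
  obtain ⟨h1, h2⟩ := ind_insert hE ha hb
  obtain ⟨h3, h4⟩ := ind_insert hE h1 hc
  refine span_of hE h3 (Set.toFinite _) ?_ (by
    intro x hx
    rcases hx with rfl | rfl | rfl
    · exact hcX
    · exact hbX
    · exact haX)
  rw [hr, Set.encard_insert_of_notMem h4, Set.encard_insert_of_notMem h2, Set.encard_singleton]
  norm_num

theorem encard_pair_le' (a b : α) : ({a, b} : Set α).encard ≤ 2 := by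
  refine (Set.encard_insert_le {b} a).trans ?_
  rw [Set.encard_singleton]; norm_num

theorem mem_cl {a : α} {X : Set α} (hE : M.E = Set.univ) (ha : a ∈ X) : a ∈ M.closure X :=
  M.mem_closure_of_mem ha (sub_E hE X)

theorem loops {e f g : α} (hef : e ∉ M.closure {f})
    (h1 : g ∈ M.closure {e}) (h2 : g ∈ M.closure {f}) : g ∈ M.closure ∅ := by
  by_contra hg
  have h3 : e ∈ M.closure (insert g ∅) \ M.closure ∅ := by
    apply M.closure_exchange
    refine ⟨?_, hg⟩
    rw [LawfulSingleton.insert_empty_eq]; exact h1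
  rw [LawfulSingleton.insert_empty_eq] at h3
  have h4 : M.closure {g} ⊆ M.closure {f} :=
    M.closure_subset_closure_of_subset_closure (Set.singleton_subset_iff.2 h2)
  exact hef (h4 h3.1)

theorem h10 {e f : α} (hE : M.E = Set.univ) (hr : M.eRank = 3) (he : M.Indep {e})
    {B : Set α} (hx0 : ∃ x ∈ B, x ∉ M.closure {f, e})
    (hn : ¬ ((∀ x ∈ B, x ∉ M.closure {f, e} → ∀ y ∈ B, y ∉ M.closure {f, e} →
        M.closure {e, x} = M.closure {e, y}) ∧
      ∀ g ∈ B, g ∈ M.closure {f, e} → g ∈ M.closure {e})) : M.Spanning (insert e B) := by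
  by_cases hc : ∀ x ∈ B, x ∉ M.closure {f, e} → ∀ y ∈ B, y ∉ M.closure {f, e} →
        M.closure {e, x} = M.closure {e, y}
  · have h2 : ∃ g ∈ B, g ∈ M.closure {f, e} ∧ g ∉ M.closure {e} := by
      by_contra hcon
      push Not at hcon
      exact hn ⟨hc, hcon⟩
    obtain ⟨g, hgB, hg1, hg2⟩ := h2
    obtain ⟨x, hxB, hx⟩ := hx0
    have h3 : M.closure {g, e} = M.closure {f, e} := M.closure_insert_congr ⟨hg1, hg2⟩
    exact span3 hE hr he hg2 (by rw [h3]; exact hx) (Set.mem_insert _ _)
      (Set.mem_insert_of_mem _ hgB) (Set.mem_insert_of_mem _ hxB)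
  · push Not at hc
    obtain ⟨x, hxB, hx, y, hyB, hy, hne⟩ := hc
    have hcl : M.closure {e} ⊆ M.closure {f, e} :=
      M.closure_subset_closure (Set.subset_insert _ _)
    refine span3 hE hr he (b := x) (c := y) (fun h => hx (hcl h)) (fun h => hne ?_)
      (Set.mem_insert _ _) (Set.mem_insert_of_mem _ hxB) (Set.mem_insert_of_mem _ hyB)
    have h3 : M.closure {y, e} = M.closure {x, e} :=
      M.closure_insert_congr ⟨h, fun h' => hy (hcl h')⟩
    rw [Set.pair_comm e x, Set.pair_comm e y, h3]

theorem cell {e f x w : α} (hE : M.E = Set.univ) (hr : M.eRank = 3) (he : M.Indep {e})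
    (hf : f ∉ M.closure {e}) (hx : x ∉ M.closure {f, e})
    (h1 : M.closure {e, w} = M.closure {e, x}) (h2 : M.closure {f, w} = M.closure {f, x}) :
    w ∈ M.closure {x} := by
  by_contra hw
  have e1 : e ∈ M.closure (insert w {x}) := by
    refine (M.closure_exchange ⟨?_, hw⟩).1
    have : w ∈ M.closure {e, w} := mem_cl hE (by simp)
    rw [h1] at this
    exact this
  have f1 : f ∈ M.closure (insert w {x}) := by
    refine (M.closure_exchange ⟨?_, hw⟩).1
    have : w ∈ M.closure {f, w} := mem_cl hE (by simp)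
    rw [h2] at this
    exact this
  have x1 : x ∈ M.closure (insert w {x}) := mem_cl hE (by simp)
  have h3 : M.Spanning {x, f, e} := span3 hE hr he hf hx (by simp) (by simp) (by simp)
  refine nsp (X := {x, f, e}) (Y := insert w {x}) ?_ ?_ h3
  · intro y hy
    rcases hy with rfl | rfl | rfl
    · exact x1
    · exact f1
    · exact e1
  · rw [hr]
    exact lt_of_le_of_lt (encard_pair_le' w x) (by norm_num)

theorem notspan_pair {a b : α} {B : Set α} (hr : M.eRank = 3) (h : B ⊆ M.closure {a, b}) :
    ¬ M.Spanning B := by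
  apply nsp h
  rw [hr]
  exact lt_of_le_of_lt (encard_pair_le' a b) (by norm_num)

theorem notspan_one {a : α} {B : Set α} (hr : M.eRank = 2) (h : B ⊆ M.closure {a}) :
    ¬ M.Spanning B := by
  apply nsp h
  rw [hr, Set.encard_singleton]
  norm_num

/-- Weighted sum over the subsets of `X` with property `p`. -/
noncomputable def sm (z : α → ℝ) (X : Finset α) (p : Finset α → Prop) : ℝ :=
  ∑ B ∈ X.powerset with p B, ∏ a ∈ B, z a

/-- Rank three. -/
theorem rank3 [Fintype α] (h : StmtAbs) (hE : M.E = Set.univ) (hr : M.eRank = 3) {e f : α}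
    (hef : e ≠ f) (hI : M.Indep {e, f}) (z : α → ℝ) (hz : ∀ x, 0 < z x) :
    sm z ((univ : Finset α) \ {e, f}) (fun B => M.Spanning (insert e (insert f (B : Set α)))) *
      sm z ((univ : Finset α) \ {e, f}) (fun B => M.Spanning (B : Set α)) ≤
    sm z ((univ : Finset α) \ {e, f}) (fun B => M.Spanning (insert e (B : Set α))) *
      sm z ((univ : Finset α) \ {e, f}) (fun B => M.Spanning (insert f (B : Set α))) := by
  have he : M.Indep {e} := hI.subset (by simp)
  have hf : M.Indep {f} := hI.subset (by simp)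
  have hfe : f ∉ M.closure {e} := by
    rw [he.notMem_closure_iff (sub_E hE Set.univ (Set.mem_univ f))]
    refine ⟨?_, fun h => hef (Set.mem_singleton_iff.1 h).symm⟩
    rw [Set.pair_comm]; exact hI
  have hef' : e ∉ M.closure {f} := by
    rw [hf.notMem_closure_iff (sub_E hE Set.univ (Set.mem_univ e))]
    exact ⟨hI, fun h => hef (Set.mem_singleton_iff.1 h)⟩
  set O : Finset α := univ.filter (fun x => x ∉ M.closure {f, e}) with hO
  set L : Finset α := univ.filter (fun x => x ∈ M.closure {f, e} ∧ x ≠ e ∧ x ≠ f) with hL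
  set Le : Finset α := L.filter (fun x => x ∈ M.closure {e}) with hLe
  set Lf : Finset α := L.filter (fun x => x ∈ M.closure {f}) with hLf
  have mO : ∀ x, x ∈ O ↔ x ∉ M.closure {f, e} := by intro x; simp [hO]
  have mL : ∀ x, x ∈ L ↔ x ∈ M.closure {f, e} ∧ x ≠ e ∧ x ≠ f := by intro x; simp [hL]
  have mLe : ∀ x, x ∈ Le ↔ x ∈ L ∧ x ∈ M.closure {e} := by intro x; simp [hLe]
  have mLf : ∀ x, x ∈ Lf ↔ x ∈ L ∧ x ∈ M.closure {f} := by intro x; simp [hLf]
  have mefe : e ∈ M.closure {f, e} := mem_cl hE (by simp)
  have meff : f ∈ M.closure {f, e} := mem_cl hE (by simp)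
  have hOL : (univ : Finset α) \ {e, f} = O ∪ L := by
    ext x
    simp only [mem_sdiff, mem_univ, true_and, mem_insert, mem_singleton, mem_union, mO, mL]
    constructor
    · intro hx
      by_cases hc : x ∈ M.closure {f, e}
      · right
        exact ⟨hc, fun h => hx (Or.inl h), fun h => hx (Or.inr h)⟩
      · left; exact hc
    · rintro (hx | ⟨-, h1, h2⟩) (rfl | rfl)
      · exact hx mefe
      · exact hx meff
      · exact h1 rfl
      · exact h2 rfl
  have hloop : ∀ g ∈ Le ∩ Lf, g ∈ M.closure ∅ := by
    intro g hg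
    rw [mem_inter, mLe, mLf] at hg
    exact loops hef' hg.1.2 hg.2.2
  -- membership split
  have split : ∀ B ⊆ O ∪ L, ∀ x ∈ B, x ∈ B ∩ O ∨ x ∈ B ∩ L := by
    intro B hB x hx
    rcases mem_union.1 (hB hx) with h | h
    · left; exact mem_inter.2 ⟨hx, h⟩
    · right; exact mem_inter.2 ⟨hx, h⟩
  -- the two first-type conditions
  have key : ∀ {e f : α}, M.Indep {e} → O = univ.filter (fun x => x ∉ M.closure {f, e}) →
      L ⊆ univ.filter (fun x => x ∈ M.closure {f, e}) → ∀ B ⊆ O ∪ L, (B ∩ O).Nonempty →
      ¬ ((∀ x ∈ B ∩ O, ∀ y ∈ B ∩ O, M.closure {e, x} = M.closure {e, y}) ∧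
        B ∩ L ⊆ L.filter (fun x => x ∈ M.closure {e})) → M.Spanning (insert e (B : Set α)) := by
    intro e f he hO' hL' B hB hne hn
    have mO' : ∀ x, x ∈ O ↔ x ∉ M.closure {f, e} := by intro x; rw [hO']; simp
    apply h10 hE hr he (f := f)
    · obtain ⟨x, hx⟩ := hne
      rw [mem_inter, mO'] at hx
      exact ⟨x, hx.1, hx.2⟩
    · rintro ⟨h1, h2⟩
      apply hn
      refine ⟨fun x hx y hy => ?_, fun g hg => ?_⟩
      · rw [mem_inter, mO'] at hx hy
        exact h1 x hx.1 hx.2 y hy.1 hy.2
      · rw [mem_inter] at hg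
        rw [mem_filter]
        have h3 := hL' hg.2
        rw [mem_filter] at h3
        exact ⟨hg.2, h2 g hg.1 h3.2⟩
  have key2 : ∀ e' : α, ∀ B ⊆ O ∪ L, (B ∩ O).Nonempty →
      (∀ x ∈ B ∩ O, ∀ y ∈ B ∩ O, M.closure {e', x} = M.closure {e', y}) →
      B ∩ L ⊆ L.filter (fun x => x ∈ M.closure {e'}) → ¬ M.Spanning (B : Set α) := by
    intro e' B hB ⟨x, hx⟩ h1 h2
    apply notspan_pair hr (a := e') (b := x)
    intro y hy
    rcases split B hB y (mem_coe.1 hy) with h | h
    · rw [h1 x hx y h]
      exact mem_cl hE (by simp)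
    · have h3 := h2 h
      rw [mem_filter] at h3
      exact M.closure_subset_closure (by simp) h3.2
  have main := h α (Set α) (Set α) z O L Le Lf (fun x => M.closure {e, x})
    (fun x => M.closure {f, x}) (fun B => M.Spanning (insert e (insert f (B : Set α))))
    (fun B => M.Spanning (insert e (B : Set α))) (fun B => M.Spanning (insert f (B : Set α)))
    (fun B => M.Spanning (B : Set α)) (fun x => (hz x).le)
    (by
      rw [Finset.disjoint_left]
      intro x hx hx'
      rw [mO] at hx
      rw [mL] at hx'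
      exact hx hx'.1)
    (filter_subset _ _) (filter_subset _ _)
    (by
      intro B hB hs
      by_contra hne
      rw [not_nonempty_iff_eq_empty] at hne
      refine notspan_pair hr (a := f) (b := e) ?_ hs
      intro x hx
      rcases hx with rfl | rfl | hx
      · exact mefe
      · exact meff
      · rcases split B hB x (mem_coe.1 hx) with h | h
        · rw [hne] at h; exact absurd h (notMem_empty _)
        · rw [mem_inter, mL] at h
          exact h.2.1)
    (by
      intro B hB hne hn
      exact key he rfl (fun x hx => by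
        rw [mL] at hx
        simp [hx.1]) B hB hne hn)
    (by
      intro B hB hne hn
      exact key (e := f) (f := e) hf (by rw [hO, Set.pair_comm]) (fun x hx => by
        rw [mL, Set.pair_comm] at hx
        simp [hx.1]) B hB hne hn)
    (by
      intro B hB hs
      have hne : (B ∩ O).Nonempty := by
        by_contra hne
        rw [not_nonempty_iff_eq_empty] at hne
        refine notspan_pair hr (a := f) (b := e) ?_ hs
        intro x hx
        rcases split B hB x (mem_coe.1 hx) with h | h
        · rw [hne] at h; exact absurd h (notMem_empty _)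
        · rw [mem_inter, mL] at h
          exact h.2.1
      refine ⟨hne, fun hh => key2 e B hB hne hh.1 hh.2 hs, fun hh => key2 f B hB hne hh.1 hh.2 hs,
        ?_, ?_⟩
      · rintro ⟨x, hx, y, hy, -, -, hcells, hloops⟩
        refine notspan_pair hr (a := x) (b := y) ?_ hs
        rw [mem_inter, mO] at hx hy
        intro w hw
        rcases split B hB w (mem_coe.1 hw) with h | h
        · rcases hcells w h with h' | h'
          · have := cell hE hr he hfe hx.2 h'.1 h'.2
            exact M.closure_subset_closure (by simp) this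
          · have := cell hE hr he hfe hy.2 h'.1 h'.2
            exact M.closure_subset_closure (by simp) this
        · exact M.closure_subset_closure (Set.empty_subset _) (hloop w (hloops h))
      · rintro ⟨hcell, g, hg, hsub⟩
        obtain ⟨x, hx⟩ := hne
        refine notspan_pair hr (a := x) (b := g) ?_ hs
        intro w hw
        rcases split B hB w (mem_coe.1 hw) with h | h
        · have h1 := hcell w h x hx
          rw [mem_inter, mO] at hx
          have := cell hE hr he hfe hx.2 h1.1 h1.2
          exact M.closure_subset_closure (by simp) this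
        · rcases mem_insert.1 (hsub h) with rfl | h2
          · exact mem_cl hE (by simp)
          · exact M.closure_subset_closure (Set.empty_subset _) (hloop w h2))
  rw [hOL]
  exact main

theorem sm_insert' {z z' : α → ℝ} {e : α} {L : Finset α} (he : e ∉ L) (h1 : z' e = 1)
    (h2 : ∀ x ∈ L, z' x = z x) (p q : Finset α → Prop)
    (hq : ∀ B, q B ↔ (e ∈ B ∧ p (B.erase e))) :
    sm z' ({e} ∪ L) q = sm z L p := by
  unfold sm
  refine Finset.sum_nbij' (fun B => B.erase e) (fun B => insert e B) ?_ ?_ ?_ ?_ ?_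
  · intro B hB
    rw [mem_filter, mem_powerset] at hB ⊢
    rw [hq] at hB
    refine ⟨fun x hx => ?_, hB.2.2⟩
    rw [mem_erase] at hx
    rcases mem_union.1 (hB.1 hx.2) with h | h
    · exact absurd (mem_singleton.1 h) hx.1
    · exact h
  · intro B hB
    rw [mem_filter, mem_powerset] at hB ⊢
    rw [hq]
    have heB : e ∉ B := fun h => he (hB.1 h)
    refine ⟨fun x hx => ?_, mem_insert_self _ _, by rw [erase_insert heB]; exact hB.2⟩
    rcases mem_insert.1 hx with h | h
    · exact mem_union_left _ (mem_singleton.2 h)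
    · exact mem_union_right _ (hB.1 h)
  · intro B hB
    rw [mem_filter, hq] at hB
    exact insert_erase hB.2.1
  · intro B hB
    rw [mem_filter, mem_powerset] at hB
    exact erase_insert fun h => he (hB.1 h)
  · intro B hB
    rw [mem_filter, mem_powerset, hq] at hB
    rw [← mul_prod_erase B z' hB.2.1, h1, one_mul]
    apply prod_congr rfl
    intro x hx
    rw [mem_erase] at hx
    apply h2
    rcases mem_union.1 (hB.1 hx.2) with h | h
    · exact absurd (mem_singleton.1 h) hx.1
    · exact h

theorem sm_insert {z z' : α → ℝ} {e : α} {L : Finset α} (he : e ∉ L) (h1 : z' e = 1)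
    (h2 : ∀ x ∈ L, z' x = z x) (p : Finset α → Prop) :
    sm z' ({e} ∪ L) (fun B => e ∈ B ∧ p (B.erase e)) = sm z L p :=
  sm_insert' he h1 h2 p _ fun _ => Iff.rfl

/-- Rank two. -/
theorem rank2 [Fintype α] (h : StmtAbs) (hE : M.E = Set.univ) (hr : M.eRank = 2) {e f : α}
    (hef : e ≠ f) (hI : M.Indep {e, f}) (z : α → ℝ) (hz : ∀ x, 0 < z x) :
    sm z ((univ : Finset α) \ {e, f}) (fun B => M.Spanning (insert e (insert f (B : Set α)))) *
      sm z ((univ : Finset α) \ {e, f}) (fun B => M.Spanning (B : Set α)) ≤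
    sm z ((univ : Finset α) \ {e, f}) (fun B => M.Spanning (insert e (B : Set α))) *
      sm z ((univ : Finset α) \ {e, f}) (fun B => M.Spanning (insert f (B : Set α))) := by
  have he : M.Indep {e} := hI.subset (by simp)
  have hf : M.Indep {f} := hI.subset (by simp)
  have hef' : e ∉ M.closure {f} := by
    rw [hf.notMem_closure_iff (sub_E hE Set.univ (Set.mem_univ e))]
    exact ⟨hI, fun h => hef (Set.mem_singleton_iff.1 h)⟩
  set L : Finset α := univ \ {e, f} with hL
  have heL : e ∉ L := by simp [hL]
  set Le : Finset α := L.filter (fun x => x ∈ M.closure {e}) with hLe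
  set Lf : Finset α := L.filter (fun x => x ∈ M.closure {f}) with hLf
  set z' : α → ℝ := fun x => if x = e then 1 else z x with hz'
  have z1 : z' e = 1 := by rw [hz']; simp
  have z2 : ∀ x ∈ L, z' x = z x := by
    intro x hx
    rw [hz']
    have : x ≠ e := fun h => heL (h ▸ hx)
    simp [this]
  have hloop : ∀ g ∈ Le ∩ Lf, g ∈ M.closure ∅ := by
    intro g hg
    rw [mem_inter, hLe, hLf, mem_filter, mem_filter] at hg
    exact loops hef' hg.1.2 hg.2.2
  have key : ∀ {a : α}, M.Indep {a} → ∀ B : Finset α,
      ¬ B ∩ L ⊆ L.filter (fun x => x ∈ M.closure {a}) →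
      M.Spanning (insert a ((B.erase e : Finset α) : Set α)) := by
    intro a ha B hn
    rw [Finset.not_subset] at hn
    obtain ⟨g, hg, hg'⟩ := hn
    rw [mem_inter] at hg
    rw [mem_filter, not_and] at hg'
    refine span2 hE hr ha (hg' hg.2) (Set.mem_insert _ _) (Set.mem_insert_of_mem _ ?_)
    rw [mem_coe, mem_erase]
    exact ⟨fun h => heL (h ▸ hg.2), hg.1⟩
  have sub : ∀ B ⊆ {e} ∪ L, ∀ x ∈ B.erase e, x ∈ B ∩ L := by
    intro B hB x hx
    rw [mem_erase] at hx
    rcases mem_union.1 (hB hx.2) with h | h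
    · exact absurd (mem_singleton.1 h) hx.1
    · exact mem_inter.2 ⟨hx.2, h⟩
  have key2 : ∀ a : α, ∀ B ⊆ {e} ∪ L, M.Spanning ((B.erase e : Finset α) : Set α) →
      B ∩ L ⊆ L.filter (fun x => x ∈ M.closure {a}) → False := by
    intro a B hB hs hsub
    refine notspan_one (a := a) hr ?_ hs
    intro x hx
    have h1 := hsub (sub B hB x (mem_coe.1 hx))
    rw [mem_filter] at h1
    exact h1.2
  have main := h α Unit Unit z' {e} L Le Lf (fun _ => ()) (fun _ => ())
    (fun B => e ∈ B ∧ M.Spanning (insert e (insert f ((B.erase e : Finset α) : Set α))))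
    (fun B => e ∈ B ∧ M.Spanning (insert e ((B.erase e : Finset α) : Set α)))
    (fun B => e ∈ B ∧ M.Spanning (insert f ((B.erase e : Finset α) : Set α)))
    (fun B => e ∈ B ∧ M.Spanning ((B.erase e : Finset α) : Set α))
    (by
      intro x
      rw [hz']
      by_cases hx : x = e
      · simp [hx]
      · simp only [hx, if_false]; exact (hz x).le)
    (by rw [Finset.disjoint_singleton_left]; exact heL)
    (filter_subset _ _) (filter_subset _ _)
    (by
      intro B _ hB
      exact ⟨e, mem_inter.2 ⟨hB.1, mem_singleton_self e⟩⟩)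
    (by
      intro B _ hne hn
      obtain ⟨x, hx⟩ := hne
      rw [mem_inter, mem_singleton] at hx
      refine ⟨hx.2 ▸ hx.1, key he B fun hsub => hn ⟨fun _ _ _ _ => rfl, hsub⟩⟩)
    (by
      intro B _ hne hn
      obtain ⟨x, hx⟩ := hne
      rw [mem_inter, mem_singleton] at hx
      refine ⟨hx.2 ▸ hx.1, key hf B fun hsub => hn ⟨fun _ _ _ _ => rfl, hsub⟩⟩)
    (by
      intro B hB hs
      refine ⟨⟨e, mem_inter.2 ⟨hs.1, mem_singleton_self e⟩⟩, fun hh => key2 e B hB hs.2 hh.2,
        fun hh => key2 f B hB hs.2 hh.2, ?_, ?_⟩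
      · rintro ⟨x, -, y, -, hxy, -⟩
        exact hxy rfl
      · rintro ⟨-, g, -, hsub⟩
        refine notspan_one (a := g) hr ?_ hs.2
        intro x hx
        rcases mem_insert.1 (hsub (sub B hB x (mem_coe.1 hx))) with rfl | h2
        · exact mem_cl hE (by simp)
        · exact M.closure_subset_closure (Set.empty_subset _) (hloop x h2))
  have e1 := sm_insert heL z1 z2 (fun B => M.Spanning (insert e (insert f (B : Set α))))
  have e2 := sm_insert heL z1 z2 (fun B => M.Spanning (B : Set α))
  have e3 := sm_insert heL z1 z2 (fun B => M.Spanning (insert e (B : Set α)))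
  have e4 := sm_insert heL z1 z2 (fun B => M.Spanning (insert f (B : Set α)))
  rw [← e1, ← e2, ← e3, ← e4]
  exact main

/-- The inequality for an independent pair in a matroid of rank at most three. -/
theorem matSm (h : StmtAbs) [Fintype α] (M : Matroid α) (hE : M.E = Set.univ)
    (hr : M.eRank ≤ 3) {e f : α} (hef : e ≠ f) (hI : M.Indep {e, f}) (z : α → ℝ)
    (hz : ∀ x, 0 < z x) :
    sm z ((univ : Finset α) \ {e, f}) (fun B => M.Spanning (insert e (insert f (B : Set α)))) *
      sm z ((univ : Finset α) \ {e, f}) (fun B => M.Spanning (B : Set α)) ≤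
    sm z ((univ : Finset α) \ {e, f}) (fun B => M.Spanning (insert e (B : Set α))) *
      sm z ((univ : Finset α) \ {e, f}) (fun B => M.Spanning (insert f (B : Set α))) := by
  have h2 : 2 ≤ M.eRank := by
    have := hI.encard_le_eRank
    rwa [Set.encard_pair hef] at this
  have h3 : M.eRank = 2 ∨ M.eRank = 3 := by
    revert hr h2
    generalize M.eRank = r
    intro h1 h2
    cases r with
    | top => simp at h1
    | coe n =>
      have h1' : n ≤ 3 := by exact_mod_cast h1
      have h2' : 2 ≤ n := by exact_mod_cast h2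
      interval_cases n
      · left; rfl
      · right; rfl
  rcases h3 with h3 | h3
  · exact rank2 h hE h3 hef hI z hz
  · exact rank3 h hE h3 hef hI z hz

/-- Clean form of `StmtMat` (the sums range over finsets `B`). -/
theorem matClean (h : StmtAbs) (α : Type) [Fintype α] (M : Matroid α) (hE : M.E = Set.univ)
    (hr : M.eRank ≤ 3) (e f : α) (hef : e ≠ f) (hI : M.Indep {e, f}) (z : α → ℝ)
    (hz : ∀ x, 0 < z x) :
    (∑ B ∈ (((univ : Finset α) \ {e, f}).powerset).filter
        (fun B : Finset α => M.Spanning (insert e (insert f (B : Set α)))), ∏ a ∈ B, z a) *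
      (∑ B ∈ (((univ : Finset α) \ {e, f}).powerset).filter
        (fun B : Finset α => M.Spanning (B : Set α)), ∏ a ∈ B, z a) ≤
    (∑ B ∈ (((univ : Finset α) \ {e, f}).powerset).filter
        (fun B : Finset α => M.Spanning (insert e (B : Set α))), ∏ a ∈ B, z a) *
      (∑ B ∈ (((univ : Finset α) \ {e, f}).powerset).filter
        (fun B : Finset α => M.Spanning (insert f (B : Set α))), ∏ a ∈ B, z a) :=
  matSm h M hE hr hef hI z hz

theorem coe_sum {α : Type} [Fintype α] (z : α → ℝ) (X : Finset (Finset α))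
    (p : Set α → Prop) :
    (∑ B ∈ (do let a ← X; pure (a : Set α) : Finset (Set α)) with p B, ∏ a ∈ B.toFinset, z a) =
      ∑ B ∈ X.filter (fun B : Finset α => p (B : Set α)), ∏ a ∈ B, z a := by
  have h1 : (do let a ← X; pure (a : Set α) : Finset (Set α)) =
      X.image (fun a : Finset α => (a : Set α)) := by
    ext B
    simp [Finset.bind_def, Finset.pure_def]
  rw [h1, Finset.filter_image, Finset.sum_image]
  · apply Finset.sum_congr rfl
    intro B _
    simp
  · intro a _ b _ hab
    exact Finset.coe_injective hab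

theorem stmtMat_of (h : StmtAbs) : StmtMat := by
  intro α _ M hE hr e f hef hI z hz
  have h1 := matClean h α M hE hr e f hef hI z hz
  rw [← coe_sum z _ (fun B => M.Spanning (insert e (insert f B))),
    ← coe_sum z _ (fun B => M.Spanning B), ← coe_sum z _ (fun B => M.Spanning (insert e B)),
    ← coe_sum z _ (fun B => M.Spanning (insert f B))] at h1
  exact h1

end Pool.Agent.R928.SC
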